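import Mathlib
import Pool.Agent.Helper93.TP.Defs2

/-!
TP-9: the structure of the canonical subspace.
-/

namespace Pool.Agent.Helper93.TP

open MvPolynomial Module

namespace Struct

set_option linter.unusedSectionVars false

variable {σ : Type*} [Fintype σ]

theorem lf_add (b c : σ → ℂ) : lf (b + c) = lf b + lf c := by
  simp only [lf, Pi.add_apply, add_smul, Finset.sum_add_distrib]

theorem lf_smul (t : ℂ) (b : σ → ℂ) : lf (t • b) = t • lf b := by
  simp only [lf, Pi.smul_apply, smul_eq_mul, Finset.smul_sum, mul_smul]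

/-- `lf` as a linear map -/
noncomputable def lfL (σ : Type*) [Fintype σ] : (σ → ℂ) →ₗ[ℂ] MvPolynomial σ ℂ where
  toFun := lf
  map_add' := lf_add
  map_smul' := lf_smul

theorem lf_sum {ι : Type*} (s : Finset ι) (f : ι → σ → ℂ) :
    lf (∑ i ∈ s, f i) = ∑ i ∈ s, lf (f i) := map_sum (lfL σ) f s

theorem lf_isHomogeneous (b : σ → ℂ) : (lf b).IsHomogeneous 1 := by
  unfold lf
  refine IsHomogeneous.sum _ _ _ (fun i _ => ?_)
  rw [smul_eq_C_mul]
  have := (isHomogeneous_C σ (b i)).mul (isHomogeneous_X ℂ i)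
  simpa using this

variable [DecidableEq σ]

theorem lf_single (i : σ) (t : ℂ) : lf (Pi.single i t) = t • (X i : MvPolynomial σ ℂ) := by
  unfold lf
  rw [Finset.sum_eq_single i]
  · simp
  · intro j _ hj
    simp [hj]
  · intro h
    exact absurd (Finset.mem_univ i) h

/-- the algebra endomorphism induced by a linear map -/
noncomputable def rho (u : (σ → ℂ) →ₗ[ℂ] (σ → ℂ)) : MvPolynomial σ ℂ →ₐ[ℂ] MvPolynomial σ ℂ :=
  aeval (fun i => lf (u (Pi.single i 1)))

theorem rho_X (u : (σ → ℂ) →ₗ[ℂ] (σ → ℂ)) (i : σ) :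
    rho u (X i) = lf (u (Pi.single i 1)) := by
  simp [rho]

theorem pi_sum_single (b : σ → ℂ) : b = ∑ i, b i • (Pi.single i (1 : ℂ) : σ → ℂ) := by
  ext j
  simp [Finset.sum_apply, Pi.single_apply]

theorem rho_lf (u : (σ → ℂ) →ₗ[ℂ] (σ → ℂ)) (b : σ → ℂ) : rho u (lf b) = lf (u b) := by
  conv_rhs => rw [pi_sum_single b, map_sum, lf_sum]
  unfold lf
  rw [map_sum]
  refine Finset.sum_congr rfl (fun i _ => ?_)
  rw [map_smul, rho_X, map_smul]
  exact (lf_smul _ _).symm

theorem rho_homog (u : (σ → ℂ) →ₗ[ℂ] (σ → ℂ)) {n : ℕ} {q : MvPolynomial σ ℂ}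
    (hq : q ∈ homogeneousSubmodule σ ℂ n) : rho u q ∈ homogeneousSubmodule σ ℂ n := by
  rw [mem_homogeneousSubmodule] at hq ⊢
  have := hq.aeval (fun i => lf (u (Pi.single i 1))) (fun i => lf_isHomogeneous _)
  rw [one_mul] at this
  exact this

/-- the action on vector valued forms -/
noncomputable def rho3 (u : (σ → ℂ) →ₗ[ℂ] (σ → ℂ)) :
    (Fin 3 → MvPolynomial σ ℂ) →ₗ[ℂ] (Fin 3 → MvPolynomial σ ℂ) :=
  (rho u).toLinearMap.compLeft (Fin 3)

theorem rho3_apply (u : (σ → ℂ) →ₗ[ℂ] (σ → ℂ)) (f : Fin 3 → MvPolynomial σ ℂ) (y : Fin 3) :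
    rho3 u f y = rho u (f y) := rfl

/-- the action on vector valued linear forms -/
def act (u : (σ → ℂ) →ₗ[ℂ] (σ → ℂ)) (ξ : σ → Fin 3 → ℂ) : σ → Fin 3 → ℂ :=
  fun i y => u (fun i' => ξ i' y) i

omit [DecidableEq σ] in
theorem nu_apply (b : σ → ℂ) (ξ : σ → Fin 3 → ℂ) (y : Fin 3) :
    nu b ξ y = lf b ^ 2 * lf (fun i => ξ i y) := rfl

theorem rho3_nu (u : (σ → ℂ) →ₗ[ℂ] (σ → ℂ)) (b : σ → ℂ) (ξ : σ → Fin 3 → ℂ) :
    rho3 u (nu b ξ) = nu (u b) (act u ξ) := by
  funext y
  rw [rho3_apply, nu_apply, nu_apply, map_mul, map_pow, rho_lf, rho_lf]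
  rfl

variable {K : ℕ} (cl : σ → Fin (K + 1))

/-- class preserving linear maps -/
def CP (u : (σ → ℂ) →ₗ[ℂ] (σ → ℂ)) : Prop :=
  ∀ i j, cl i ≠ cl j → u (Pi.single i 1) j = 0

theorem P0_le_comap (nn : Fin (K + 1) → Fin 3 → ℂ) {u : (σ → ℂ) →ₗ[ℂ] (σ → ℂ)}
    (hu : CP cl u) : P0 cl nn ≤ (P0 cl nn).comap (rho3 u) := by
  unfold P0
  rw [Submodule.span_le]
  rintro _ ⟨i, q, hq, rfl⟩
  rw [SetLike.mem_coe, Submodule.mem_comap]
  have e : rho3 u (fun y => nn (cl i) y • (X i * q)) =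
      ∑ j, u (Pi.single i 1) j • (fun y => nn (cl j) y • (X j * rho u q)) := by
    funext y
    rw [rho3_apply, map_smul, map_mul, rho_X]
    simp only [Finset.sum_apply, Pi.smul_apply]
    unfold lf
    rw [Finset.sum_mul, Finset.smul_sum]
    refine Finset.sum_congr rfl (fun j _ => ?_)
    by_cases h : cl i = cl j
    · rw [h, smul_mul_assoc, smul_comm]
    · rw [hu i j h]
      simp
  rw [e]
  refine Submodule.sum_mem _ (fun j _ => Submodule.smul_mem _ _ (Submodule.subset_span ?_))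
  exact ⟨j, rho u q, rho_homog u hq, rfl⟩

theorem Sig_le_comap (nn : Fin (K + 1) → Fin 3 → ℂ) {u : (σ → ℂ) →ₗ[ℂ] (σ → ℂ)}
    (hu : CP cl u) (A : Finset ℕ) (ω : ℕ → σ → ℂ) :
    Sig nu (P0 cl nn) A ω ≤ (Sig nu (P0 cl nn) A (fun k => u (ω k))).comap (rho3 u) := by
  have h1 := P0_le_comap cl nn hu
  conv_lhs => unfold Sig
  refine sup_le (h1.trans (Submodule.comap_mono (S0_le_Sig _ _ _ _))) (iSup₂_le (fun i hi => ?_))
  rintro _ ⟨ξ, rfl⟩
  rw [Submodule.mem_comap, rho3_nu]
  exact range_le_Sig nu (P0 cl nn) hi (fun k => u (ω k)) ⟨_, rfl⟩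

theorem act_mem_Can (nn : Fin (K + 1) → Fin 3 → ℂ) (t : ℕ) (u : (σ → ℂ) ≃ₗ[ℂ] (σ → ℂ))
    (hu : CP cl u.toLinearMap) {b : σ → ℂ} {ξ : σ → Fin 3 → ℂ}
    (h : ξ ∈ Can nu (P0 cl nn) t b) : act u.toLinearMap ξ ∈ Can nu (P0 cl nn) t (u b) := by
  change Gen (fun ω : ℕ → σ → ℂ => nu (u b) (act u.toLinearMap ξ) ∈
    Sig nu (P0 cl nn) (Finset.range t) ω)
  have h' : Gen (fun ω : ℕ → σ → ℂ => nu b ξ ∈ Sig nu (P0 cl nn) (Finset.range t) ω) := h
  rw [← Gen.comp_equiv_iff (LinearEquiv.piCongrRight (fun _ : ℕ => u))]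
  refine h'.mono (fun ω hω => ?_)
  have := Sig_le_comap cl nn hu (Finset.range t) ω hω
  rw [Submodule.mem_comap, rho3_nu] at this
  exact this

/-- pure tensors -/
def tens (w : σ → ℂ) (η : Fin 3 → ℂ) : σ → Fin 3 → ℂ := fun i y => w i * η y

theorem act_tens (u : (σ → ℂ) →ₗ[ℂ] (σ → ℂ)) (w : σ → ℂ) (η : Fin 3 → ℂ) :
    act u (tens w η) = tens (u w) η := by
  funext i y
  have e : (fun i' => tens w η i' y) = η y • w := by
    funext i'
    simp [tens, mul_comm]
  unfold act
  rw [e, map_smul]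
  simp [tens, mul_comm]

theorem tens_add (w : σ → ℂ) (η η' : Fin 3 → ℂ) : tens w (η + η') = tens w η + tens w η' := by
  funext i y
  simp [tens, mul_add]

theorem tens_smul (w : σ → ℂ) (s : ℂ) (η : Fin 3 → ℂ) : tens w (s • η) = s • tens w η := by
  funext i y
  simp [tens, mul_left_comm]

theorem smul_tens (w : σ → ℂ) (s : ℂ) (η : Fin 3 → ℂ) : tens (s • w) η = s • tens w η := by
  funext i y
  simp [tens, mul_assoc]

theorem tens_zero (w : σ → ℂ) : tens w 0 = 0 := by
  funext i y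
  simp [tens]

/-- the directions of class `c` at `b` -/
def Th (nn : Fin (K + 1) → Fin 3 → ℂ) (t : ℕ) (c : Fin (K + 1)) (b : σ → ℂ) :
    Submodule ℂ (Fin 3 → ℂ) where
  carrier := {η | ∀ w : σ → ℂ, (∀ i, cl i ≠ c → w i = 0) →
    tens w η ∈ Can nu (P0 cl nn) t b}
  add_mem' := by
    intro x y hx hy w hw
    rw [tens_add]
    exact Submodule.add_mem _ (hx w hw) (hy w hw)
  zero_mem' := by
    intro w _
    rw [tens_zero]
    exact Submodule.zero_mem _
  smul_mem' := by
    intro s x hx w hw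
    rw [tens_smul]
    exact Submodule.smul_mem _ _ (hx w hw)

theorem nn_mem_Th (nn : Fin (K + 1) → Fin 3 → ℂ) (t : ℕ) (c : Fin (K + 1)) (b : σ → ℂ) :
    nn c ∈ Th cl nn t c b := by
  intro w hw
  refine Gen.of_forall (fun ω => S0_le_Sig nu (P0 cl nn) _ ω ?_)
  have e : nu b (tens w (nn c)) = ∑ i, w i • (fun y => nn (cl i) y • (X i * lf b ^ 2)) := by
    funext y
    rw [nu_apply]
    simp only [Finset.sum_apply, Pi.smul_apply]
    have hlf : lf (fun i => tens w (nn c) i y) =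
        ∑ i, (tens w (nn c) i y) • (X i : MvPolynomial σ ℂ) := rfl
    rw [hlf, Finset.mul_sum]
    refine Finset.sum_congr rfl (fun i _ => ?_)
    by_cases h : cl i = c
    · rw [h]
      simp only [tens]
      rw [mul_smul, Algebra.mul_smul_comm, Algebra.mul_smul_comm, mul_comm]
    · rw [show tens w (nn c) i y = w i * nn c y from rfl, hw i h]
      simp
  rw [e]
  refine Submodule.sum_mem _ (fun i _ => Submodule.smul_mem _ _ (Submodule.subset_span ?_))
  refine ⟨i, lf b ^ 2, ?_, rfl⟩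
  rw [mem_homogeneousSubmodule]
  have := (lf_isHomogeneous b).pow 2
  simpa using this

/-- diagonal maps -/
noncomputable def diagE (d : σ → ℂ) (hd : ∀ i, d i ≠ 0) : (σ → ℂ) ≃ₗ[ℂ] (σ → ℂ) where
  toFun x := fun i => d i * x i
  map_add' x y := by funext i; simp [mul_add]
  map_smul' s x := by funext i; simp [mul_left_comm]
  invFun x := fun i => (d i)⁻¹ * x i
  left_inv x := by funext i; simp [hd i]
  right_inv x := by funext i; simp [hd i]

theorem diagE_CP (d : σ → ℂ) (hd : ∀ i, d i ≠ 0) : CP cl (diagE d hd).toLinearMap := by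
  intro i j hij
  have h : j ≠ i := fun h => hij (by rw [h])
  change d j * (Pi.single i (1 : ℂ) : σ → ℂ) j = 0
  rw [Pi.single_eq_of_ne h, mul_zero]

theorem Th_le (nn : Fin (K + 1) → Fin 3 → ℂ) (t : ℕ) (c : Fin (K + 1)) {b b' : σ → ℂ}
    (hb : ∀ i, b i ≠ 0) (hb' : ∀ i, b' i ≠ 0) : Th cl nn t c b ≤ Th cl nn t c b' := by
  intro η hη w hw
  have hd : ∀ i, b' i / b i ≠ 0 := fun i => div_ne_zero (hb' i) (hb i)
  set u := diagE (fun i => b' i / b i) hd with hu
  have h1 : tens (u.symm w) η ∈ Can nu (P0 cl nn) t b := by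
    refine hη _ (fun i hi => ?_)
    change (b' i / b i)⁻¹ * w i = 0
    rw [hw i hi, mul_zero]
  have h2 := act_mem_Can cl nn t u (diagE_CP cl _ hd) h1
  rw [act_tens] at h2
  have e1 : u.toLinearMap (u.symm w) = w := u.apply_symm_apply w
  have e2 : u b = b' := by
    funext i
    change b' i / b i * b i = b' i
    rw [div_mul_cancel₀ _ (hb i)]
  rw [e1, e2] at h2
  exact h2

/-- rank one perturbations of the identity -/
noncomputable def trE (φ : (σ → ℂ) →ₗ[ℂ] ℂ) (w : σ → ℂ) (h : 1 + φ w ≠ 0) :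
    (σ → ℂ) ≃ₗ[ℂ] (σ → ℂ) where
  toFun x := x + φ x • w
  map_add' x y := by rw [map_add, add_smul]; abel
  map_smul' s x := by
    rw [map_smul, RingHom.id_apply, smul_add, smul_eq_mul, mul_smul]
  invFun x := x - (φ x / (1 + φ w)) • w
  left_inv x := by
    funext i
    simp only [map_add, map_smul, smul_eq_mul, Pi.sub_apply, Pi.add_apply, Pi.smul_apply]
    field_simp
    ring
  right_inv x := by
    funext i
    simp only [map_sub, map_smul, smul_eq_mul, Pi.sub_apply, Pi.add_apply, Pi.smul_apply]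
    field_simp
    ring

theorem diff_mem_Th (nn : Fin (K + 1) → Fin 3 → ℂ) (t : ℕ) {b : σ → ℂ}
    {ξ : σ → Fin 3 → ℂ} (hξ : ξ ∈ Can nu (P0 cl nn) t b) {i j : σ} (hij : cl i = cl j) :
    (b j • ξ i - b i • ξ j) ∈ Th cl nn t (cl i) b := by
  set φ : (σ → ℂ) →ₗ[ℂ] ℂ := b j • LinearMap.proj i - b i • LinearMap.proj j with hφ
  have hφb : φ b = 0 := by
    simp [hφ, mul_comm]
  have hη : (b j • ξ i - b i • ξ j) = fun y => φ (fun i' => ξ i' y) := by
    funext y
    simp [hφ]
  rw [hη]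
  have key : ∀ w : σ → ℂ, (∀ k, cl k ≠ cl i → w k = 0) → 1 + φ w ≠ 0 →
      tens w (fun y => φ (fun i' => ξ i' y)) ∈ Can nu (P0 cl nn) t b := by
    intro w hw h1
    have hCP : CP cl (trE φ w h1).toLinearMap := by
      intro k l hkl
      have hlk : l ≠ k := fun h => hkl (by rw [h])
      change (Pi.single k (1 : ℂ) : σ → ℂ) l + φ (Pi.single k 1) * w l = 0
      rw [Pi.single_eq_of_ne hlk, zero_add]
      by_cases hk : cl k = cl i
      · rw [hw l (fun h => hkl (by rw [hk, h])), mul_zero]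
      · have a1 : i ≠ k := fun h => hk (by rw [h])
        have a2 : j ≠ k := fun h => hk (by rw [← h, hij])
        have : φ (Pi.single k 1) = 0 := by
          simp [hφ, a1, a2]
        rw [this, zero_mul]
    have h2 := act_mem_Can cl nn t (trE φ w h1) hCP hξ
    have e2 : (trE φ w h1) b = b := by
      change b + φ b • w = b
      rw [hφb, zero_smul, add_zero]
    rw [e2] at h2
    have e3 : act (trE φ w h1).toLinearMap ξ = ξ + tens w (fun y => φ (fun i' => ξ i' y)) := by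
      funext k y
      change ξ k y + φ (fun i' => ξ i' y) * w k = ξ k y + w k * φ (fun i' => ξ i' y)
      rw [mul_comm (w k)]
    rw [e3] at h2
    have := Submodule.sub_mem _ h2 hξ
    simpa using this
  intro w hw
  by_cases h1 : 1 + φ w = 0
  · have h2 : 1 + φ ((2 : ℂ) • w) ≠ 0 := by
      rw [map_smul, smul_eq_mul]
      have : φ w = -1 := by linear_combination h1
      rw [this]
      norm_num
    have h3 := key ((2 : ℂ) • w) (fun k hk => by simp [hw k hk]) h2
    rw [smul_tens] at h3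
    have h4 := Submodule.smul_mem _ (2 : ℂ)⁻¹ h3
    rw [smul_smul, inv_mul_cancel₀ two_ne_zero, one_smul] at h4
    exact h4
  · exact key w hw h1

/-- representatives of the classes -/
noncomputable def repL : (σ → Fin 3 → ℂ) →ₗ[ℂ] (Fin (K + 1) → Fin 3 → ℂ) := by
  classical
  exact
  { toFun := fun ξ c => if h : ∃ i, cl i = c then ξ h.choose else 0
    map_add' := by
      intro x y
      funext c
      by_cases h : ∃ i, cl i = c
      · simp [dif_pos h]
      · simp [dif_neg h]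
    map_smul' := by
      intro s x
      funext c
      by_cases h : ∃ i, cl i = c
      · simp [dif_pos h]
      · simp [dif_neg h] }

theorem repL_apply (ξ : σ → Fin 3 → ℂ) (c : Fin (K + 1)) (h : ∃ i, cl i = c) :
    repL cl ξ c = ξ h.choose := by
  unfold repL
  simp only [LinearMap.coe_mk, AddHom.coe_mk]
  rw [dif_pos h]

theorem finrank_Can_le (nn : Fin (K + 1) → Fin 3 → ℂ) (t : ℕ) {b : σ → ℂ}
    (hb : ∀ i, b i ≠ 0) :
    finrank ℂ (Can nu (P0 cl nn) t b) ≤
      (∑ i, finrank ℂ (Th cl nn t (cl i) b)) + 3 * (K + 1) := by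
  set C := Can nu (P0 cl nn) t b with hC
  let g : C →ₗ[ℂ] (Fin (K + 1) → Fin 3 → ℂ) := (repL cl) ∘ₗ C.subtype
  have h1 := LinearMap.finrank_range_add_finrank_ker g
  have h2 : finrank ℂ (LinearMap.range g) ≤ 3 * (K + 1) := by
    refine (Submodule.finrank_le _).trans ?_
    rw [Module.finrank_pi_fintype]
    simp
    rw [mul_comm]
  have hmem : ∀ x : LinearMap.ker g, ∀ i, ((x : C) : σ → Fin 3 → ℂ) i ∈ Th cl nn t (cl i) b := by
    intro x i
    have hex : ∃ j, cl j = cl i := ⟨i, rfl⟩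
    have hx : repL cl ((x : C) : σ → Fin 3 → ℂ) (cl i) = 0 := by
      have := x.2
      rw [LinearMap.mem_ker] at this
      exact congrFun this (cl i)
    rw [repL_apply cl _ _ hex] at hx
    have h3 := diff_mem_Th cl nn t (x : C).2 (i := i) (j := hex.choose) hex.choose_spec.symm
    rw [hx, smul_zero, sub_zero] at h3
    have h4 := Submodule.smul_mem _ (b hex.choose)⁻¹ h3
    rw [smul_smul, inv_mul_cancel₀ (hb _), one_smul] at h4
    exact h4
  let f : LinearMap.ker g →ₗ[ℂ] (∀ i, Th cl nn t (cl i) b) :=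
    { toFun := fun x i => ⟨((x : C) : σ → Fin 3 → ℂ) i, hmem x i⟩
      map_add' := by
        intro x y
        funext i
        rfl
      map_smul' := by
        intro s x
        funext i
        rfl }
  have hf : Function.Injective f := by
    intro x y hxy
    apply Subtype.ext
    apply Subtype.ext
    funext i
    have := congrFun hxy i
    exact congrArg Subtype.val this
  have h3 := LinearMap.finrank_le_finrank_of_injective hf
  rw [Module.finrank_pi_fintype] at h3
  omega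

theorem gen_coords : Gen (fun b : σ → ℂ => ∀ i, b i ≠ 0) := by
  refine Gen.forall_fintype (fun i => ?_)
  refine ⟨fun b => b i, PolyFun.linear (LinearMap.proj (R := ℂ) (φ := fun _ : σ => ℂ) i), ?_,
    fun b hb => hb⟩
  intro h
  have := congrFun h (fun _ => 1)
  exact one_ne_zero this

/-- the forms which lie in `Sig` generically -/
def Zs (nn : Fin (K + 1) → Fin 3 → ℂ) (t : ℕ) : Submodule ℂ (Fin 3 → MvPolynomial σ ℂ) where
  carrier := {f | Gen (fun ω : ℕ → σ → ℂ => f ∈ Sig nu (P0 cl nn) (Finset.range t) ω)}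
  add_mem' := by
    intro x y hx hy
    refine (Gen.and hx hy).mono ?_
    rintro ω ⟨h1, h2⟩
    exact Submodule.add_mem _ h1 h2
  zero_mem' := Gen.of_forall (fun ω => Submodule.zero_mem _)
  smul_mem' := by
    intro c x hx
    refine Gen.mono hx ?_
    intro ω h
    exact Submodule.smul_mem _ _ h

theorem ZT_le_Zs (nn : Fin (K + 1) → Fin 3 → ℂ) (t : ℕ)
    (hpoly : ∀ ξ : σ → Fin 3 → ℂ, PolyMap (fun b : σ → ℂ => nu b ξ))
    (hsp : Submodule.span ℂ (Set.range fun b : σ → ℂ => lf b ^ 2) =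
      homogeneousSubmodule σ ℂ 2) :
    ZT cl (fun c => Th cl nn t c (fun _ => 1)) ≤ Zs cl nn t := by
  unfold ZT
  rw [Submodule.span_le]
  rintro _ ⟨i, q, η, hq, hη, rfl⟩
  have h1 : ∀ b : σ → ℂ, nu b (tens (Pi.single i 1) η) ∈ Zs cl nn t := by
    intro b
    refine (hpoly (tens (Pi.single i 1) η)).mem_of_gen (Zs cl nn t) ?_ b
    refine gen_coords.mono (fun b hb => ?_)
    have h2 := Th_le cl nn t (cl i) (b := fun _ => 1) (b' := b) (fun _ => one_ne_zero) hb hη
    have h3 := h2 (Pi.single i 1) (fun j hj => Pi.single_eq_of_ne (fun h => hj (by rw [h])) _)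
    exact h3
  have h4 : ∀ b : σ → ℂ, nu b (tens (Pi.single i 1) η) = fun y => η y • (X i * lf b ^ 2) := by
    intro b
    funext y
    rw [nu_apply]
    have : (fun i' => tens (Pi.single i 1) η i' y) = (Pi.single i (η y) : σ → ℂ) := by
      funext j
      simp only [tens]
      by_cases h : j = i
      · subst h; simp
      · simp [h]
    rw [this, lf_single, Algebra.mul_smul_comm, mul_comm]
  let L : MvPolynomial σ ℂ →ₗ[ℂ] (Fin 3 → MvPolynomial σ ℂ) :=
    LinearMap.pi (fun y => η y • LinearMap.mulLeft ℂ (X i))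
  have hL : ∀ q, L q = fun y => η y • (X i * q) := fun q => rfl
  rw [← hsp] at hq
  have h5 : Submodule.span ℂ (Set.range fun b : σ → ℂ => lf b ^ 2) ≤ (Zs cl nn t).comap L := by
    rw [Submodule.span_le]
    rintro _ ⟨b, rfl⟩
    rw [SetLike.mem_coe, Submodule.mem_comap, hL, ← h4]
    exact h1 b
  have := h5 hq
  rw [Submodule.mem_comap, hL] at this
  exact this

theorem finite_homog (n : ℕ) : FiniteDimensional ℂ (homogeneousSubmodule σ ℂ n) := by
  have hle : homogeneousSubmodule σ ℂ n ≤ restrictTotalDegree σ ℂ n := by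
    intro q hq
    rw [mem_restrictTotalDegree]
    rw [mem_homogeneousSubmodule] at hq
    exact hq.totalDegree_le
  exact Submodule.finiteDimensional_of_le hle

theorem finite_T3 : FiniteDimensional ℂ (T3 σ) := by
  have := finite_homog (σ := σ) 3
  let f : (Fin 3 → homogeneousSubmodule σ ℂ 3) →ₗ[ℂ] (Fin 3 → MvPolynomial σ ℂ) :=
    (homogeneousSubmodule σ ℂ 3).subtype.compLeft (Fin 3)
  have hle : T3 σ ≤ LinearMap.range f := by
    intro g hg
    rw [T3, Submodule.mem_pi] at hg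
    exact ⟨fun y => ⟨g y, hg y (Set.mem_univ y)⟩, rfl⟩
  exact Submodule.finiteDimensional_of_le hle

end Struct

open Struct in
theorem can_struct {σ : Type*} [Fintype σ] [DecidableEq σ] {K : ℕ} (cl : σ → Fin (K + 1))
    (nn : Fin (K + 1) → Fin 3 → ℂ) (t : ℕ)
    (hpoly : ∀ ξ : σ → Fin 3 → ℂ, PolyMap (fun b : σ → ℂ => nu b ξ))
    (hsp : Submodule.span ℂ (Set.range fun b : σ → ℂ => lf b ^ 2) =
      homogeneousSubmodule σ ℂ 2) :
    ∃ Θ : Fin (K + 1) → Submodule ℂ (Fin 3 → ℂ), (∀ c, nn c ∈ Θ c) ∧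
      Gen (fun b : σ → ℂ => finrank ℂ (Can nu (P0 cl nn) t b) ≤
        (∑ i, finrank ℂ (Θ (cl i))) + 3 * (K + 1)) ∧
      Gen (fun ω : ℕ → σ → ℂ => ZT cl Θ ≤ Sig nu (P0 cl nn) (Finset.range t) ω) := by
  refine ⟨fun c => Th cl nn t c (fun _ => 1), fun c => nn_mem_Th cl nn t c _, ?_, ?_⟩
  · refine gen_coords.mono (fun b hb => ?_)
    refine (finrank_Can_le cl nn t hb).trans (Nat.add_le_add_right ?_ _)
    refine Finset.sum_le_sum (fun i _ => ?_)
    exact Submodule.finrank_mono (Th_le cl nn t (cl i) hb (fun _ => one_ne_zero))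
  · have hZ := ZT_le_Zs cl nn t hpoly hsp
    have hT : ZT cl (fun c => Th cl nn t c (fun _ => 1)) ≤ T3 σ := by
      unfold ZT
      rw [Submodule.span_le]
      rintro _ ⟨i, q, η, hq, hη, rfl⟩
      rw [SetLike.mem_coe, T3, Submodule.mem_pi]
      intro y _
      refine Submodule.smul_mem _ _ ?_
      rw [mem_homogeneousSubmodule] at hq ⊢
      have := (isHomogeneous_X ℂ i).mul hq
      simpa [add_comm] using this
    have hfd : FiniteDimensional ℂ (T3 σ) := finite_T3
    have hfg : (ZT cl (fun c => Th cl nn t c (fun _ => 1))).FG := by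
      have h1 : FiniteDimensional ℂ (ZT cl (fun c => Th cl nn t c (fun _ => 1))) :=
        Submodule.finiteDimensional_of_le hT
      exact (Submodule.fg_iff_finiteDimensional _).mpr h1
    obtain ⟨S, hS⟩ := hfg
    have h2 : Gen (fun ω : ℕ → σ → ℂ => ∀ f ∈ S,
        f ∈ Sig nu (P0 cl nn) (Finset.range t) ω) := by
      refine Gen.forall_finset S (fun f hf => ?_)
      have : f ∈ ZT cl (fun c => Th cl nn t c (fun _ => 1)) := by
        rw [← hS]
        exact Submodule.subset_span hf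
      exact hZ this
    refine h2.mono (fun ω hω => ?_)
    rw [← hS, Submodule.span_le]
    exact hω

end Pool.Agent.Helper93.TP
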